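import Pool.Agent.H.MP_78211a_gt.J

set_option autoImplicit false

namespace Pool.Agent.Results.MP_78211a_gt.SymPerp

open Set Filter Topology

def AffPlane (M : Set (ℝ × ℝ)) (d : ℝ × ℝ → ℝ × ℝ → ℝ) : Prop :=
  M.Nonempty ∧ IsOpen M ∧ Convex ℝ M ∧
  (∀ x ∈ M, ∀ y ∈ M, d x y = d y x) ∧
  (∀ x ∈ M, ∀ y ∈ M, d x y = 0 ↔ x = y) ∧
  (∀ x ∈ M, ∀ y ∈ M, ∀ z ∈ M, d x z ≤ d x y + d y z) ∧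
  (∀ u : ℕ → ℝ × ℝ, (∀ n, u n ∈ M) →
    (∀ ε > 0, ∃ N, ∀ m ≥ N, ∀ n ≥ N, d (u m) (u n) < ε) →
    ∃ x ∈ M, Tendsto (fun n => d x (u n)) atTop (𝓝 0)) ∧
  (∀ x ∈ M, ∀ z ∈ M, ∀ y ∈ segment ℝ x z, d x y + d y z = d x z) ∧
  (∀ x ∈ M, ∀ r, Convex ℝ {y ∈ M | d x y ≤ r})

def AffFinsler (M : Set (ℝ × ℝ)) (d : ℝ × ℝ → ℝ × ℝ → ℝ) (F : (ℝ × ℝ) × (ℝ × ℝ) → ℝ) : Prop :=
  ContinuousOn F (M ×ˢ univ) ∧ ContDiffOn ℝ 2 F (M ×ˢ {0}ᶜ) ∧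
  (∀ x ∈ M, ∀ v, v ≠ 0 → 0 < F (x, v)) ∧
  (∀ x ∈ M, ∀ (c : ℝ) v, F (x, c • v) = |c| * F (x, v)) ∧
  (∀ x ∈ M, ∀ u v, F (x, u + v) ≤ F (x, u) + F (x, v)) ∧
  (∀ x ∈ M, ∀ y ∈ M, IsGLB {l | ∃ γ : ℝ → ℝ × ℝ, ContDiff ℝ 1 γ ∧
    (∀ t ∈ Icc (0:ℝ) 1, γ t ∈ M) ∧ γ 0 = x ∧ γ 1 = y ∧
    l = ∫ t in (0:ℝ)..1, F (γ t, deriv γ t)} (d x y))

def AffPerp (M : Set (ℝ × ℝ)) (d : ℝ × ℝ → ℝ × ℝ → ℝ) (p v w : ℝ × ℝ) : Prop :=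
  ∀ s t : ℝ, p + s • v ∈ M → p + t • w ∈ M → d (p + s • v) p ≤ d (p + s • v) (p + t • w)

def EllPlane (d : Projectivization ℝ (Fin 3 → ℝ) → Projectivization ℝ (Fin 3 → ℝ) → ℝ)
    (L : ℝ) : Prop :=
  (∀ p q, d p q = d q p) ∧ (∀ p q, d p q = 0 ↔ p = q) ∧
  (∀ p q r, d p r ≤ d p q + d q r) ∧ 0 < L ∧
  (∀ W : Submodule ℝ (Fin 3 → ℝ), Module.finrank ℝ W = 2 →
    ∃ f : AddCircle L → Projectivization ℝ (Fin 3 → ℝ),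
      (∀ a b, d (f a) (f b) = dist a b) ∧ range f = {p | p.submodule ≤ W}) ∧
  (∀ o, ∀ r < L / 2, ∃ l : (Fin 3 → ℝ) →ₗ[ℝ] ℝ,
    (∀ p, d o p ≤ r → ¬ p.submodule ≤ LinearMap.ker l) ∧
    Convex ℝ {X | l X = 1 ∧ ∃ p, X ∈ p.submodule ∧ d o p ≤ r})

def EllFinsler (d : Projectivization ℝ (Fin 3 → ℝ) → Projectivization ℝ (Fin 3 → ℝ) → ℝ)
    (F : (Fin 3 → ℝ) × (Fin 3 → ℝ) → ℝ) : Prop :=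
  ContinuousOn F ({0}ᶜ ×ˢ univ) ∧
  ContDiffOn ℝ 2 F {q | LinearIndependent ℝ ![q.1, q.2]} ∧
  (∀ X U, LinearIndependent ℝ ![X, U] → 0 < F (X, U)) ∧
  (∀ X, X ≠ 0 → ∀ (c : ℝ) U, F (X, c • U) = |c| * F (X, U)) ∧
  (∀ X, X ≠ 0 → ∀ U T, F (X, U + T) ≤ F (X, U) + F (X, T)) ∧
  (∀ X, X ≠ 0 → ∀ (a b : ℝ) U, a ≠ 0 → F (a • X, a • U + b • X) = F (X, U)) ∧
  (∀ p q, IsGLB {l | ∃ γ : ℝ → Fin 3 → ℝ, ContDiff ℝ 1 γ ∧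
    (∀ t ∈ Icc (0:ℝ) 1, γ t ≠ 0) ∧ γ 0 ∈ p.submodule ∧ γ 1 ∈ q.submodule ∧
    l = ∫ t in (0:ℝ)..1, F (γ t, deriv γ t)} (d p q))

def EllPerp (d : Projectivization ℝ (Fin 3 → ℝ) → Projectivization ℝ (Fin 3 → ℝ) → ℝ)
    (p : Projectivization ℝ (Fin 3 → ℝ)) (W' W : Submodule ℝ (Fin 3 → ℝ)) : Prop :=
  ∀ o q : Projectivization ℝ (Fin 3 → ℝ), o.submodule ≤ W' → q.submodule ≤ W → d o p ≤ d o q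

theorem result :
    (∀ M d F, AffPlane M d → AffFinsler M d F →
      (∀ p ∈ M, ∀ v w : ℝ × ℝ, v ≠ 0 → w ≠ 0 → AffPerp M d p v w → AffPerp M d p w v) →
      (M = univ ∧ ∀ x y, d x y = F (0, y - x)) ∨
      (∀ x ∈ M, ∃ B : (ℝ × ℝ) →L[ℝ] (ℝ × ℝ) →L[ℝ] ℝ, ∀ v, F (x, v) ^ 2 = B v v)) ∧
    (∀ d L F, EllPlane d L → EllFinsler d F →
      (∀ W W' : Submodule ℝ (Fin 3 → ℝ), Module.finrank ℝ W = 2 → Module.finrank ℝ W' = 2 →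
        ∀ p : Projectivization ℝ (Fin 3 → ℝ), p.submodule ≤ W → p.submodule ≤ W' →
        EllPerp d p W' W → EllPerp d p W W') →
      ∀ X, X ≠ 0 → ∃ B : (Fin 3 → ℝ) →L[ℝ] (Fin 3 → ℝ) →L[ℝ] ℝ, ∀ U, F (X, U) ^ 2 = B U U) :=
  ⟨fun _ _ _ ⟨ne, op, cv, sy, z0, tr, cp, ad, cb⟩ ⟨ct, sm, pos, hom, tri, gl⟩ sp =>
    (Pool.Agent.H.MP_78211a_gt.Af.main
      ⟨⟨⟨op, cv, sm, pos, hom, tri⟩, ct⟩, sy, z0, tr, cp, ad, cb, gl, sp⟩ ne).symm,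
   fun _ _ _ ⟨sy, z0, tr, L0, ln, cb⟩ ⟨ct, sm, pos, hom, tri, inv, gl⟩ sp =>
    Pool.Agent.H.MP_78211a_gt.El.main ⟨sy, z0, tr, L0, ln, cb, ct, sm, pos, hom, tri, inv, gl, sp⟩⟩

end Pool.Agent.Results.MP_78211a_gt.SymPerp
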